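import Pool.Agent.H55.G.R_seed8.H499R2.HL.D

/-! The joint law of the maximum excursion and the total stopping time; the law in residue classes. -/

set_option autoImplicit false

namespace Pool.Agent.H499R2.HL

open Finset Filter Topology

open Pool.Agent.H499R2.ND (Dn cnt Tn Td IsHt Bas Bdd AK rK AK_mod AK_of_bound cnt_mono cnt_or prog_density zd_iff
  Phi Phi_continuous phi_cdf large_log)
open Pool.Agent.H499R2.LT
open Pool.Agent.H499R2.CO (HD HD_congr HD_not Slow run_Tn Slow_one)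

theorem bk_shift (x : ℝ) {L l : ℝ} (hL : 0 ≤ L) (hl0 : 0 ≤ l) (hl : l ≤ Real.log 2) :
    |bk x (L + l) - bk x L| ≤ 2 * Real.log 2 / nu + |x| * (Real.log 3 * rr) := by
  have hl2 : 0 < Real.log 2 := Real.log_pos (by norm_num)
  have hl3 : 0 < Real.log 3 := Real.log_pos (by norm_num)
  have hl21 : Real.log 2 ≤ 1 := by linarith [Real.log_two_lt_d9]
  have hrr := rr_pos
  have hnu := nu_pos
  unfold bk
  rw [sqrt_rr, sqrt_rr]
  have e : 2 / Real.log (4 / 3) * (L + l) + x * (Real.log 3 * (rr * Real.sqrt (L + l)))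
      - (2 / Real.log (4 / 3) * L + x * (Real.log 3 * (rr * Real.sqrt L)))
      = 2 * l / nu + x * ((Real.log 3 * rr) * (Real.sqrt (L + l) - Real.sqrt L)) := by
    unfold nu; ring
  rw [e]
  have h1 : 0 ≤ Real.sqrt (L + l) - Real.sqrt L := by
    linarith [Real.sqrt_le_sqrt (show L ≤ L + l by linarith)]
  have h2 : Real.sqrt (L + l) - Real.sqrt L ≤ 1 := by
    have h3 := sqrt_add hL hl0
    have h4 : Real.sqrt l ≤ 1 := Real.sqrt_le_one.2 (hl.trans hl21)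
    linarith
  refine (abs_add_le _ _).trans ?_
  rw [abs_of_nonneg (by positivity : (0 : ℝ) ≤ 2 * l / nu), abs_mul,
    abs_of_nonneg (mul_nonneg (by positivity : (0 : ℝ) ≤ Real.log 3 * rr) h1)]
  have h5 : Real.log 3 * rr * (Real.sqrt (L + l) - Real.sqrt L) ≤ Real.log 3 * rr := by
    have : 0 < Real.log 3 * rr := by positivity
    nlinarith
  have h6 := mul_le_mul_of_nonneg_left h5 (abs_nonneg x)
  have h7 : 2 * l / nu ≤ 2 * Real.log 2 / nu := div_le_div_of_nonneg_right (by linarith) hnu.le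
  linarith

theorem bk_theta (x θ L : ℝ) : bk (x + θ) L = bk x L + θ * (Real.log 3 * rr) * Real.sqrt L := by
  unfold bk
  rw [sqrt_rr]
  ring

/-- the event of the law -/
def Pev (m : ℕ) (a b : ℤ) (x : ℝ) (n : ℕ) : Prop := ∃ k : ℕ, (k : ℝ) ≤ bk x (Real.log n) ∧ H k n ∧
  (k : ℤ) ≡ a [ZMOD m] ∧ (odn k n : ℤ) ≡ b [ZMOD m]

theorem law_next {δ : ℝ} {m : ℕ} {a b : ℤ} (h : ∀ x : ℝ, Dn (Pev m a b x) (δ * Phi x)) (x : ℝ) :
    Dn (fun n => ¬ (Pev m a b x n ↔ Pev m a b x (n + 1))) 0 := by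
  have hl3 : 0 < Real.log 3 := Real.log_pos (by norm_num)
  have hrr := rr_pos
  have hrun := HD_not (run_H (Slow_one 1))
  rw [sub_self] at hrun
  have hrun' : Dn (fun n => ¬ ∀ h : ℕ, h ≤ 1 → ∀ k : ℕ, (H k (n + h) ↔ H k n) ∧
    (H k n → odn k (n + h) = odn k n)) 0 := hrun
  refine next_family (F := fun x => δ * Phi x) (Phi_continuous.const_mul _) h ?_ x ?_
  · rintro x y n hxy ⟨k, hk, hk'⟩
    refine ⟨k, hk.trans ?_, hk'⟩
    have h1 := bk_theta x (y - x) (Real.log n)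
    rw [add_sub_cancel] at h1
    rw [h1]
    have : 0 ≤ (y - x) * (Real.log 3 * rr) * Real.sqrt (Real.log n) := by
      have : 0 ≤ y - x := by linarith
      positivity
    linarith
  · intro θ hθ η hη
    obtain ⟨E, hE, hE'⟩ := large_log (large_sqrt (2 * Real.log 2 / nu + |x| * (Real.log 3 * rr))
      (show 0 < θ * (Real.log 3 * rr) by positivity)) (show 0 < η / 2 by positivity)
    refine ⟨fun n => (¬ ∀ h : ℕ, h ≤ 1 → ∀ k : ℕ, (H k (n + h) ↔ H k n) ∧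
      (H k n → odn k (n + h) = odn k n)) ∨ E n, ?_, fun n hn hnE => ?_⟩
    · filter_upwards [zd_iff.1 hrun' (η / 2) (by positivity), hE] with N h1 h2
      refine (cnt_or N fun n _ _ h => h).trans ?_
      linarith
    · rw [not_or, not_not] at hnE
      obtain ⟨hR, hEn⟩ := hnE
      obtain ⟨h1, h1'⟩ := hE' n hn hEn
      have hR1 := hR 1 le_rfl
      have hn0 : (0 : ℝ) < n := by exact_mod_cast hn
      obtain ⟨l, hl0, hl2, hlog⟩ : ∃ l : ℝ, 0 ≤ l ∧ l ≤ Real.log 2 ∧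
          Real.log ((n + 1 : ℕ) : ℝ) = Real.log n + l := by
        refine ⟨Real.log ((n + 1 : ℕ) : ℝ) - Real.log n, ?_, ?_, by ring⟩
        · rw [sub_nonneg]
          exact Real.log_le_log hn0 (by push_cast; linarith)
        · rw [sub_le_iff_le_add, ← Real.log_mul (by norm_num) hn0.ne']
          apply Real.log_le_log (by positivity)
          push_cast
          have : (1 : ℝ) ≤ n := by exact_mod_cast hn
          linarith
      have h2 := abs_le.1 (bk_shift x h1' hl0 hl2)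
      constructor
      · rintro ⟨k, hk, hH, hk1, hk2⟩
        refine ⟨k, ?_, (hR1 k).1.2 hH, hk1, by rw [(hR1 k).2 hH]; exact hk2⟩
        rw [hlog]
        have h3 := bk_theta (x - θ) θ (Real.log n)
        rw [sub_add_cancel] at h3
        linarith [h2.1]
      · rintro ⟨k, hk, hH, hk1, hk2⟩
        have hH' := (hR1 k).1.1 hH
        refine ⟨k, ?_, hH', hk1, by rw [← (hR1 k).2 hH']; exact hk2⟩
        rw [hlog] at hk
        have h3 := bk_theta x θ (Real.log n)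
        linarith [h2.2]

theorem Bdd_of_H {k n : ℕ} (h : H k n) : Bdd n := by
  have h1 : ∀ j, Bdd (Tn^[j] n) → Bdd n := by
    intro j
    induction j with
    | zero => exact fun h => h
    | succ j ih =>
      intro h
      apply ih
      rw [Pool.Agent.H499R2.ND.Bdd_inv, ← Function.iterate_succ_apply' Tn]
      exact h
  apply h1 k
  rw [h.1]
  refine ⟨2, fun j => ?_⟩
  have h2 : ∀ j, Tn^[j] 1 = 1 ∨ Tn^[j] 1 = 2 := by
    intro j
    induction j with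
    | zero => exact Or.inl rfl
    | succ j ih =>
      rw [Function.iterate_succ_apply']
      rcases ih with h | h <;> rw [h]
      · exact Or.inr rfl
      · exact Or.inl rfl
  rcases h2 j with h | h <;> omega

/-- JOINT LAW of the maximum excursion and the total stopping time -/
theorem joint_law : ∃ δ : ℝ, 0 < δ ∧ δ ≤ 1 ∧ (δ = 1 ↔ ∀ n : ℕ, 1 ≤ n → ∃ k : ℕ, Tn^[k] n = 1) ∧
    Dn (fun n => ∃ k : ℕ, Tn^[k] n = 1) δ ∧
    ∃ q : ℝ → ℝ, ∀ lam : ℝ, 1 ≤ lam → 1 - 1 / lam ≤ q lam ∧ q lam ≤ 1 ∧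
      Tendsto (fun K => rK K lam) atTop (𝓝 (q lam)) ∧
      ∀ (m : ℕ) (a b : ℤ), 1 ≤ m → ∀ x : ℝ,
        Dn (fun n => Pev m a b x n ∧ ∀ k, ((Tn^[k] n : ℕ) : ℝ) ≤ lam * n)
          (δ / m ^ 2 * Phi x * q lam) := by
  obtain ⟨δ, h0, h1, h2, h3, h4⟩ := law_one
  obtain ⟨β, _, _, _, hβ⟩ := Pool.Agent.H499R2.ND.Bdd_density
  refine ⟨δ, h0, h1, h2, h3, ?_⟩
  have h : ∀ lam : ℝ, ∃ q : ℝ, 1 ≤ lam → 1 - 1 / lam ≤ q ∧ q ≤ 1 ∧
      Tendsto (fun K => rK K lam) atTop (𝓝 q) ∧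
      Dn (fun n => ∀ k, ((Tn^[k] n : ℕ) : ℝ) ≤ lam * n) (β * q) := by
    intro lam
    by_cases hl : 1 ≤ lam
    · obtain ⟨q, g1, g2, g3, g4⟩ := Pool.Agent.H499R2.ND.exc_law hβ hl
      exact ⟨q, fun _ => ⟨g2, g3, g1, g4⟩⟩
    · exact ⟨0, fun h' => absurd h' hl⟩
  choose q hq using h
  refine ⟨q, fun lam hl => ?_⟩
  obtain ⟨g1, g2, g3, g4⟩ := hq lam hl
  refine ⟨g1, g2, g3, fun m a b hm x => ?_⟩
  have hP : ∀ x : ℝ, Dn (Pev m a b x) (δ / m ^ 2 * Phi x) := by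
    intro x
    have h5 := (h4 m a b hm).2 x
    have e : δ * ProbabilityTheory.cdf (ProbabilityTheory.gaussianReal 0 1) x / (m : ℝ) ^ 2
        = δ / m ^ 2 * Phi x := by rw [phi_cdf]; ring
    rw [e] at h5
    exact h5
  exact joint_exc hβ (fun n ⟨k, _, hk, _⟩ => Bdd_of_H hk) (hP x) (law_next hP x) hl g3 g4

/-- THE LAW IN RESIDUE CLASSES -/
theorem law_class : ∃ δ : ℝ, 0 < δ ∧ δ ≤ 1 ∧ (δ = 1 ↔ ∀ n : ℕ, 1 ≤ n → ∃ k : ℕ, Tn^[k] n = 1) ∧
    Dn (fun n => ∃ k : ℕ, Tn^[k] n = 1) δ ∧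
    ∀ (m : ℕ) (a b : ℤ), 1 ≤ m → ∀ (Q r : ℕ), 1 ≤ Q → ∀ x : ℝ,
        Dn (fun n => n % Q = r % Q ∧ Pev m a b x n) (δ / m ^ 2 * Phi x / Q) := by
  obtain ⟨δ, h0, h1, h2, h3, h4⟩ := law_one
  refine ⟨δ, h0, h1, h2, h3, fun m a b hm Q r hQ x => ?_⟩
  have hP : ∀ x : ℝ, Dn (Pev m a b x) (δ / m ^ 2 * Phi x) := by
    intro x
    have h5 := (h4 m a b hm).2 x
    have e : δ * ProbabilityTheory.cdf (ProbabilityTheory.gaussianReal 0 1) x / (m : ℝ) ^ 2
        = δ / m ^ 2 * Phi x := by rw [phi_cdf]; ring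
    rw [e] at h5
    exact h5
  exact prog_density (hP x) (law_next hP x) hQ r

end Pool.Agent.H499R2.HL
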