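import Pool.Agent.H33.G.R_seed8.H499R2.LT.R6
import Pool.Agent.H55.G.R_seed8.H499R2.NDHt

/-! The law of the heights. -/

set_option autoImplicit false

namespace Pool.Agent.H499R2.HL

open Finset Filter Topology

open Pool.Agent.H499R2.ND (Dn cnt Tn Td IsHt Bas dn_squeeze large_log Phi_continuous phi_cdf cnt_eq)
open Pool.Agent.H499R2.LT

theorem cnt_even (P : ℕ → Prop) (N : ℕ) : cnt (fun n => n % 2 = 0 ∧ P n) N = cnt (fun n => P (2 * n)) (N / 2) := by
  unfold cnt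
  have h : {n : ℕ | 1 ≤ n ∧ n ≤ N ∧ (n % 2 = 0 ∧ P n)}
      = (fun n => 2 * n) '' {n : ℕ | 1 ≤ n ∧ n ≤ N / 2 ∧ P (2 * n)} := by
    ext n
    constructor
    · rintro ⟨h1, h2, h3, h4⟩
      refine ⟨n / 2, ⟨by omega, by omega, ?_⟩, by show 2 * (n / 2) = n; omega⟩
      have : 2 * (n / 2) = n := by omega
      rw [this]; exact h4
    · rintro ⟨m, ⟨h1, h2, h3⟩, rfl⟩
      exact ⟨by show 1 ≤ 2 * m; omega, by show 2 * m ≤ N; omega, by show 2 * m % 2 = 0; omega, h3⟩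
  rw [h, Set.ncard_image_of_injective _ (fun a b hab => by
    have : 2 * a = 2 * b := hab
    omega)]

theorem dn_even {P : ℕ → Prop} {l : ℝ} (h : Dn (fun n => P (2 * n)) l) :
    Dn (fun n => n % 2 = 0 ∧ P n) (l / 2) := by
  have h1 : Tendsto (fun N : ℕ => N / 2) atTop atTop := by
    refine tendsto_atTop.2 fun b => ?_
    filter_upwards [eventually_ge_atTop (2 * b)] with N hN
    omega
  have h2 := Tendsto.comp h h1
  have h3 : Tendsto (fun N : ℕ => ((N / 2 : ℕ) : ℝ) / N) atTop (𝓝 (1 / 2)) := by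
    rw [Metric.tendsto_atTop]
    intro ε hε
    obtain ⟨M, hM⟩ := exists_nat_gt (1 / ε)
    refine ⟨M + 1, fun N hN => ?_⟩
    have hN0 : (0 : ℝ) < N := by exact_mod_cast (by omega : 0 < N)
    have h4 : (N : ℝ) = 2 * ((N / 2 : ℕ) : ℝ) + ((N % 2 : ℕ) : ℝ) := by
      exact_mod_cast (Nat.div_add_mod N 2).symm
    have h5 : ((N % 2 : ℕ) : ℝ) ≤ 1 := by exact_mod_cast (by omega : N % 2 ≤ 1)
    have h5' : (0 : ℝ) ≤ ((N % 2 : ℕ) : ℝ) := by positivity
    have h6 : 1 / ε < N := hM.trans_le (by exact_mod_cast (by omega : M ≤ N))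
    rw [div_lt_iff₀ hε] at h6
    have h7 : ((N / 2 : ℕ) : ℝ) = (N : ℝ) / 2 - ((N % 2 : ℕ) : ℝ) / 2 := by linarith
    rw [Real.dist_eq, h7, sub_div, div_div, mul_comm (2 : ℝ), ← div_div, div_self hN0.ne',
      sub_sub_cancel_left, abs_neg, abs_of_nonneg (by positivity), div_lt_iff₀ hN0]
    nlinarith
  have h7 := h2.mul h3
  rw [mul_one_div] at h7
  unfold Dn
  refine h7.congr' ?_
  filter_upwards [eventually_ge_atTop 2] with N hN
  rw [cnt_even]
  have h8 : ((N / 2 : ℕ) : ℝ) ≠ 0 := by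
    have : N / 2 ≠ 0 := by omega
    exact_mod_cast this
  simp only [Function.comp]
  field_simp

theorem dn_odd {P : ℕ → Prop} {l : ℝ} (h : Dn P l) (h' : Dn (fun n => P (2 * n)) l) :
    Dn (fun n => n % 2 = 1 ∧ P n) (l / 2) := by
  have h1 := dn_even h'
  have h2 := h.sub h1
  rw [show l - l / 2 = l / 2 by ring] at h2
  unfold Dn
  refine h2.congr fun N => ?_
  rw [← sub_div]
  congr 1
  unfold cnt
  have hf : ∀ R : ℕ → Prop, {n : ℕ | 1 ≤ n ∧ n ≤ N ∧ R n}.Finite := fun R =>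
    (Set.finite_Icc 1 N).subset fun n hn => ⟨hn.1, hn.2.1⟩
  have e : {n : ℕ | 1 ≤ n ∧ n ≤ N ∧ P n} = {n : ℕ | 1 ≤ n ∧ n ≤ N ∧ (n % 2 = 0 ∧ P n)}
      ∪ {n : ℕ | 1 ≤ n ∧ n ≤ N ∧ (n % 2 = 1 ∧ P n)} := by
    ext n
    constructor
    · rintro ⟨h1, h2, h3⟩
      rcases Nat.mod_two_eq_zero_or_one n with h4 | h4
      · exact Or.inl ⟨h1, h2, h4, h3⟩
      · exact Or.inr ⟨h1, h2, h4, h3⟩
    · rintro (⟨h1, h2, _, h3⟩ | ⟨h1, h2, _, h3⟩) <;> exact ⟨h1, h2, h3⟩
  rw [e, Set.ncard_union_eq _ (hf _) (hf _)]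
  · push_cast; ring
  · rw [Set.disjoint_left]
    rintro n ⟨_, _, h3, _⟩ ⟨_, _, h4, _⟩
    omega

/-- the hitting event -/
def H (k n : ℕ) : Prop := Tn^[k] n = 1 ∧ ∀ i < k, Tn^[i] n ≠ 1

theorem H_unique {k k' n : ℕ} (h : H k n) (h' : H k' n) : k = k' := by
  rcases lt_trichotomy k k' with h1 | h1 | h1
  · exact absurd h.1 (h'.2 k h1)
  · exact h1
  · exact absurd h'.1 (h.2 k' h1)

theorem Tn_two (n : ℕ) : Tn (2 * n) = n := by
  simp only [Tn]; rw [if_pos (by omega)]; omega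

theorem H_two {k n : ℕ} (h : H k n) : H (k + 1) (2 * n) := by
  constructor
  · rw [Function.iterate_succ_apply, Tn_two]; exact h.1
  · intro i hi
    rcases i with _ | i
    · intro h0
      have : 2 * n = 1 := h0
      omega
    · rw [Function.iterate_succ_apply, Tn_two]; exact h.2 i (by omega)

theorem H_of_two {k n : ℕ} (h : H k (2 * n)) : ∃ k', k = k' + 1 ∧ H k' n := by
  rcases k with _ | k
  · exfalso
    have : 2 * n = 1 := h.1
    omega
  · refine ⟨k, rfl, ?_, fun i hi => ?_⟩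
    · have := h.1
      rwa [Function.iterate_succ_apply, Tn_two] at this
    · have := h.2 (i + 1) (by omega)
      rwa [Function.iterate_succ_apply, Tn_two] at this

theorem odn_two (k n : ℕ) : odn (k + 1) (2 * n) = odn k n := by
  have h1 := od_nat (k + 1) (2 * n)
  have h2 := od_nat k n
  have h3 : od 1 (k + 1) ((2 * n : ℕ) : ℤ) = od 1 k (n : ℤ) := by
    rw [od]
    have e1 : ((2 * n : ℕ) : ℤ) % 2 = 0 := by omega
    have e2 : Td 1 ((2 * n : ℕ) : ℤ) = (n : ℤ) := by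
      unfold Td
      rw [if_pos e1]; omega
    rw [if_pos e1, e2]
    ring
  rw [h3, h2] at h1
  exact_mod_cast h1.symm

end Pool.Agent.H499R2.HL
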