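import Pool.Agent.H55.G.R_seed8.H499R2.HL.B
import Pool.Agent.H33.G.R_seed8.H499R2.CO.R6

/-! Runs of consecutive integers: total stopping times, numbers of odd terms, heights. -/

set_option autoImplicit false

namespace Pool.Agent.H499R2.HL

open Finset Filter Topology

open Pool.Agent.H499R2.ND (Dn cnt Tn Td IsHt Bas)
open Pool.Agent.H499R2.LT
open Pool.Agent.H499R2.CO (HD HD_congr Slow run_Tn Slow_one)

/-- upper bound for the iterates -/
theorem iter_upper (t : ℕ) : ∀ n : ℕ, 2 ^ t * Tn^[t] n + 3 ^ odn t n ≤ 3 ^ odn t n * (n + 2 ^ t) := by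
  induction t with
  | zero =>
    intro n
    have e : odn 0 n = 0 := by simp [odn]
    rw [e]
    simp
  | succ t ih =>
    intro n
    have h1 := ih (Tn n)
    have e : odn (t + 1) n = n % 2 + odn t (Tn n) := by
      rw [← oc_odn, ← oc_odn, Pool.Agent.H363R2.oc, Pool.Agent.H499R2.ND.TN_eq_Tn]
    rw [Function.iterate_succ_apply, e]
    set o := odn t (Tn n) with ho
    set y := Tn^[t] (Tn n) with hy
    have hp : 1 ≤ 3 ^ o := Nat.one_le_pow _ _ (by norm_num)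
    have h2p : 1 ≤ 2 ^ t := Nat.one_le_pow _ _ (by norm_num)
    rcases Nat.mod_two_eq_zero_or_one n with h | h
    · have hT : 2 * Tn n = n := by simp only [Tn]; rw [if_pos h]; omega
      rw [h, zero_add]
      have h3 : 2 * (2 ^ t * y + 3 ^ o) ≤ 3 ^ o * (2 * Tn n + 2 * 2 ^ t) := by
        calc 2 * (2 ^ t * y + 3 ^ o) ≤ 2 * (3 ^ o * (Tn n + 2 ^ t)) := Nat.mul_le_mul_left _ h1
          _ = 3 ^ o * (2 * Tn n + 2 * 2 ^ t) := by ring
      rw [hT] at h3
      rw [pow_succ]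
      nlinarith
    · have hT : 2 * Tn n = 3 * n + 1 := by simp only [Tn]; rw [if_neg (by omega)]; omega
      rw [h]
      have h3 : 2 * (2 ^ t * y + 3 ^ o) ≤ 3 ^ o * (2 * Tn n + 2 * 2 ^ t) := by
        calc 2 * (2 ^ t * y + 3 ^ o) ≤ 2 * (3 ^ o * (Tn n + 2 ^ t)) := Nat.mul_le_mul_left _ h1
          _ = 3 ^ o * (2 * Tn n + 2 * 2 ^ t) := by ring
      rw [hT] at h3
      rw [pow_succ, pow_add, pow_one]
      nlinarith [Nat.mul_le_mul_left (3 ^ o) h2p]

theorem iter_lower (t n : ℕ) : 3 ^ odn t n * n ≤ 2 ^ t * Tn^[t] n := by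
  have h := Pool.Agent.H363R2.oc_upper t n
  rwa [oc_odn, Pool.Agent.H499R2.ND.TN_eq_Tn] at h

/-- a common iterate of close integers at a small time: the same number of odd terms -/
theorem odn_eq {t n m : ℕ} (h2 : 4 ^ t ≤ n) (hn : n ≤ m) (hm : m < 2 * n) (h : Tn^[t] m = Tn^[t] n) :
    odn t m = odn t n := by
  have a1 := iter_upper t n
  have a2 := iter_lower t n
  have b1 := iter_upper t m
  have b2 := iter_lower t m
  rw [h] at b1 b2
  have h4 : (2 : ℕ) ^ t * 2 ^ t = 4 ^ t := by rw [← mul_pow]; norm_num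
  have h2t : 2 ^ t ≤ n := by
    have : 1 ≤ 2 ^ t := Nat.one_le_pow _ _ (by norm_num)
    nlinarith
  have p1 : ∀ o : ℕ, 1 ≤ 3 ^ o := fun o => Nat.one_le_pow _ _ (by norm_num)
  rcases lt_trichotomy (odn t m) (odn t n) with h5 | h5 | h5
  · exfalso
    have h6 : 3 * 3 ^ odn t m ≤ 3 ^ odn t n := by
      rw [← pow_succ']; exact Nat.pow_le_pow_right (by norm_num) h5
    have h7 := p1 (odn t m)
    have h8 : 3 * 3 ^ odn t m * n ≤ 3 ^ odn t n * n := Nat.mul_le_mul_right _ h6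
    have h9 : 3 * 3 ^ odn t m * n < 3 ^ odn t m * (m + 2 ^ t) := by
      calc 3 * 3 ^ odn t m * n ≤ 2 ^ t * Tn^[t] n := h8.trans a2
        _ < 2 ^ t * Tn^[t] n + 3 ^ odn t m := by omega
        _ ≤ _ := b1
    have h10 : 3 * n < m + 2 ^ t := by
      have e : 3 * 3 ^ odn t m * n = 3 ^ odn t m * (3 * n) := by ring
      rw [e] at h9
      exact lt_of_mul_lt_mul_left h9 (Nat.zero_le _)
    omega
  · exact h5
  · exfalso
    have h6 : 3 * 3 ^ odn t n ≤ 3 ^ odn t m := by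
      rw [← pow_succ']; exact Nat.pow_le_pow_right (by norm_num) h5
    have h7 := p1 (odn t n)
    have h8 : 3 * 3 ^ odn t n * m ≤ 3 ^ odn t m * m := Nat.mul_le_mul_right _ h6
    have h9 : 3 * 3 ^ odn t n * m < 3 ^ odn t n * (n + 2 ^ t) := by
      calc 3 * 3 ^ odn t n * m ≤ 2 ^ t * Tn^[t] n := h8.trans b2
        _ < 2 ^ t * Tn^[t] n + 3 ^ odn t n := by omega
        _ ≤ _ := a1
    have h10 : 3 * m < n + 2 ^ t := by
      have e : 3 * 3 ^ odn t n * m = 3 ^ odn t n * (3 * m) := by ring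
      rw [e] at h9
      exact lt_of_mul_lt_mul_left h9 (Nat.zero_le _)
    omega

theorem pow_le_of_hit {k n : ℕ} (h : Tn^[k] n = 1) : n ≤ 2 ^ k := by
  have h1 := iter_lower k n
  rw [h, mul_one] at h1
  have : 1 ≤ 3 ^ odn k n := Nat.one_le_pow _ _ (by norm_num)
  nlinarith

theorem odn_add (a b n : ℕ) : odn (a + b) n = odn a n + odn b (Tn^[a] n) := by
  rw [← oc_odn, ← oc_odn, ← oc_odn, Pool.Agent.H363R2.oc_add, Pool.Agent.H499R2.ND.TN_eq_Tn]

/-- the hitting time and the number of odd terms agree -/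
theorem H_transfer {t n m : ℕ} (h2 : 4 ^ t ≤ n) (hn : n ≤ m) (hm : m < 2 * n) (h : Tn^[t] m = Tn^[t] n)
    (k : ℕ) : (H k m ↔ H k n) ∧ (H k n → odn k m = odn k n) := by
  have h4 : (2 : ℕ) ^ t * 2 ^ t = 4 ^ t := by rw [← mul_pow]; norm_num
  have h1t : 1 ≤ 2 ^ t := Nat.one_le_pow _ _ (by norm_num)
  have hlt : ∀ x : ℕ, n ≤ x → ∀ i, i < t → Tn^[i] x ≠ 1 := by
    intro x hx i hi h5
    have h6 := pow_le_of_hit h5
    have h7 : 2 ^ i < 2 ^ t := Nat.pow_lt_pow_right (by norm_num) hi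
    nlinarith
  have hgen : ∀ x y : ℕ, n ≤ x → n ≤ y → Tn^[t] x = Tn^[t] y → odn t x = odn t y → H k x →
      H k y ∧ odn k x = odn k y := by
    intro x y hx hy hxy hoxy hk
    have htk : t ≤ k := by
      by_contra hc
      exact hlt x hx k (by omega) hk.1
    obtain ⟨j, rfl⟩ := Nat.exists_eq_add_of_le htk
    refine ⟨⟨?_, ?_⟩, ?_⟩
    · have h5 := hk.1
      rw [Nat.add_comm, Function.iterate_add_apply] at h5 ⊢
      rw [← hxy]; exact h5
    · intro i hi
      rcases Nat.lt_or_ge i t with h5 | h5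
      · exact hlt y hy i h5
      · obtain ⟨l, rfl⟩ := Nat.exists_eq_add_of_le h5
        have h6 := hk.2 (t + l) hi
        rw [Nat.add_comm, Function.iterate_add_apply] at h6 ⊢
        rw [← hxy]; exact h6
    · rw [odn_add, odn_add, hoxy, hxy]
  have ho := odn_eq h2 hn hm h
  exact ⟨⟨fun h5 => (hgen m n hn le_rfl h ho h5).1, fun h5 => (hgen n m le_rfl hn h.symm ho.symm h5).1⟩,
    fun h5 => (hgen n m le_rfl hn h.symm ho.symm h5).2.symm⟩

/-- slow functions are small -/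
theorem slow_le {g : ℕ → ℕ} (hg : Slow g) : ∃ N0 : ℕ, ∀ n ≥ N0, g n < n := by
  have h1 := hg.eventually (gt_mem_nhds (show (0 : ℝ) < 1 by norm_num))
  obtain ⟨M, hM⟩ := eventually_atTop.1 h1
  refine ⟨max M 16, fun n hn => ?_⟩
  have h2 := hM n ((le_max_left _ _).trans hn)
  have hn16 : 16 ≤ n := (le_max_right _ _).trans hn
  have hn16r : (16 : ℝ) ≤ n := by exact_mod_cast hn16
  have hl : Real.exp 1 ≤ Real.log n := by
    have h3 := Real.log_le_log (by norm_num) hn16r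
    rw [show (16 : ℝ) = 2 ^ 4 by norm_num, Real.log_pow] at h3
    push_cast at h3
    linarith [Real.log_two_gt_d9, Real.exp_one_lt_d9]
  have hl0 : 0 < Real.log n := (Real.exp_pos 1).trans_le hl
  have hll : 1 ≤ Real.log (Real.log n) := by
    rw [Real.le_log_iff_exp_le hl0]; exact hl
  have hs : 0 < √ (Real.log n) := Real.sqrt_pos.2 hl0
  have h2' : (g n : ℝ) * Real.log (Real.log n) / √ (Real.log n) < 1 := h2
  rw [div_lt_one hs] at h2'
  have h5 : (g n : ℝ) ≤ (g n : ℝ) * Real.log (Real.log n) := by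
    have : (0 : ℝ) ≤ g n := by positivity
    nlinarith
  have h6 : √ (Real.log n) ≤ Real.log n := by
    rw [Real.sqrt_le_left hl0.le]
    have : (1 : ℝ) ≤ Real.log n := by linarith [Real.add_one_le_exp (1 : ℝ)]
    nlinarith
  have h7 : Real.log n ≤ n := Real.log_le_self (by positivity)
  have h8 : (g n : ℝ) < n := by linarith
  exact_mod_cast h8

theorem HD_and {P Q : ℕ → Prop} (hP : HD P 1) (hQ : HD Q 1) : HD (fun n => P n ∧ Q n) 1 :=
  HD_congr hP hQ fun _ _ hp => ⟨fun hq => ⟨hp, hq⟩, fun h => h.2⟩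

theorem HD_large (N0 : ℕ) : HD (fun n => N0 ≤ n) 1 := by
  have h1 : HD (fun n : ℕ => ¬ (n : ℝ) ≤ ((N0 : ℕ) : ℝ)) (1 - 0) :=
    Pool.Agent.H499R2.CO.HD_not (Pool.Agent.H499R2.ND.zd_bdd N0)
  rw [sub_zero] at h1
  refine HD_congr h1 h1 fun n _ hn => ⟨fun _ => ?_, fun _ => hn⟩
  rw [not_le] at hn
  have : N0 < n := by exact_mod_cast hn
  omega

/-- RUNS: for almost all `n` all the integers of the run have the same hitting time of 1 (possibly
infinite) and the same number of odd terms before. -/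
theorem run_H {g : ℕ → ℕ} (hg : Slow g) :
    HD (fun n => ∀ h : ℕ, h ≤ g n → ∀ k : ℕ, (H k (n + h) ↔ H k n) ∧ (H k n → odn k (n + h) = odn k n)) 1 := by
  obtain ⟨N0, hN0⟩ := slow_le hg
  refine HD_congr (HD_and (run_Tn hg) (HD_large N0)) (HD_and (run_Tn hg) (HD_large N0))
    fun n hn hE => ⟨fun _ => ?_, fun _ => hE⟩
  obtain ⟨⟨t, ht, hh⟩, hN⟩ := hE
  have hgn := hN0 n hN
  intro h hgh k
  exact H_transfer ht (Nat.le_add_right _ _) (by omega) (hh h hgh) k

theorem ht_H {x : ℕ} (hx : x % 2 = 1) (hx1 : x ≠ 1) (h : ℕ) : IsHt x h ↔ ∃ k, H k x ∧ odn k x = h := by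
  have hht : ∀ k, H k x → IsHt x (odn k x) := by
    intro k hk
    have h5 := Pool.Agent.H363R2.Cm_height k x (Nat.odd_iff.2 hx) hx1
      (by rw [Pool.Agent.H499R2.ND.TN_eq_Tn]; exact hk.1)
      (by rw [Pool.Agent.H499R2.ND.TN_eq_Tn]; exact hk.2)
    rw [oc_odn] at h5
    exact h5
  constructor
  · intro hh
    have hb : Bas x := (Pool.Agent.H499R2.ND.ht_iff (Nat.odd_iff.2 hx)).2 ⟨h, hh⟩
    classical
    have hb' : ∃ k, Tn^[k] x = 1 := hb
    have hk : H (Nat.find hb') x := ⟨Nat.find_spec hb', fun i hi => Nat.find_min hb' hi⟩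
    exact ⟨_, hk, (Pool.Agent.H499R2.ND.ht_unique hh (hht _ hk)).symm⟩
  · rintro ⟨k, hk, rfl⟩
    exact hht k hk

theorem Slow_two {g : ℕ → ℕ} (hg : Slow g) : Slow (fun n => 2 * g n) := by
  unfold Slow at *
  have h := hg.const_mul 2
  rw [mul_zero] at h
  refine h.congr fun n => ?_
  push_cast
  ring

/-- RUNS OF HEIGHTS -/
theorem run_ht {g : ℕ → ℕ} (hg : Slow g) :
    HD (fun n => n % 2 = 1 ∧ ∀ j : ℕ, j ≤ g n → ∀ h : ℕ, IsHt (n + 2 * j) h ↔ IsHt n h) (1 / 2) := by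
  refine HD_congr (HD_and (run_H (Slow_two hg)) (HD_large 2)) (P := fun n => n % 2 = 1)
    Pool.Agent.H499R2.ND.odd_density fun n hn hE => ?_
  obtain ⟨hE, hN⟩ := hE
  refine ⟨fun hodd => ⟨hodd, fun j hj h => ?_⟩, fun h => h.1⟩
  rw [ht_H (by omega) (by omega), ht_H hodd (by omega)]
  have h1 := hE (2 * j) (Nat.mul_le_mul_left 2 hj)
  constructor
  · rintro ⟨k, hk, ho⟩
    have h2 := (h1 k).1.1 hk
    exact ⟨k, h2, by rw [← ho, (h1 k).2 h2]⟩
  · rintro ⟨k, hk, ho⟩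
    exact ⟨k, (h1 k).1.2 hk, by rw [(h1 k).2 hk]; exact ho⟩

end Pool.Agent.H499R2.HL
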